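import Mathlib
import Pool.Agent.Y156.L.Props
import Pool.Agent.Y1.CT.IndepDefs

/-!
# Unramified cohomology of the product of an abelian variety and any variety: definitions
-/

set_option autoImplicit false

namespace Pool.Agent.Y156.U

open Polynomial Pool.Agent.Y156.L Pool.Agent.Y1.CT

/-- Data of etale motivic cohomology with integral coefficients for a smooth projective variety `Z`
and its product with the abelian variety `A`, over a finite field. -/
structure UnrData {F : Type} [Field F] (A : AbelianData F) where
  /-- the ring `CH ^ dim (A × A)` of correspondences, with integral coefficients -/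
  R : Type
  [ringR : Ring R]
  /-- the passage to rational coefficients -/
  rat : R →+* A.Corr
  /-- the Frobenius endomorphism of `A` -/
  frobA : R
  /-- the etale motivic cohomology group `H^4(A × Z, ℤ(2))` -/
  H : Type
  [groupH : AddCommGroup H]
  /-- the operation of the correspondences -/
  [moduleH : Module R H]
  /-- the subgroup `CH^2(A × Z)` -/
  CH : AddSubgroup H
  /-- the etale motivic cohomology group `H^4(Z, ℤ(2))` -/
  HZ : Type
  [groupZ : AddCommGroup HZ]
  /-- the subgroup `CH^2(Z)` -/
  CHZ : AddSubgroup HZ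
  /-- the pull-back along the projection `A × Z → Z` -/
  pull : HZ →+ H
  /-- the restriction to `0 × Z` -/
  restr : H →+ HZ
  /-- the Frobenius endomorphism of `Z`, on `H^4(A × Z, ℤ(2))` -/
  frobZ : AddMonoid.End H

attribute [instance] UnrData.ringR UnrData.groupH UnrData.moduleH UnrData.groupZ

variable {F : Type} [Field F] {A : AbelianData F}

/-- The unramified cohomology group `H^3_nr(A × Z, ℚ/ℤ(2))`, the quotient of the etale motivic
cohomology group `H^4(A × Z, ℤ(2))` by `CH^2(A × Z)` (Kahn). -/
abbrev UnrData.UnrProduct (T : UnrData A) : Type := T.H ⧸ T.CH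

/-- The unramified cohomology group `H^3_nr(Z, ℚ/ℤ(2))`. -/
abbrev UnrData.UnrFactor (T : UnrData A) : Type := T.HZ ⧸ T.CHZ

/-- Integral and rational correspondences: every rational correspondence has an integral multiple,
and an integral correspondence which is rationally zero is torsion. -/
structure IsIntegralForm (T : UnrData A) : Prop where
  denom : ∀ γ : A.Corr, ∃ (N : ℕ) (r : T.R), 0 < N ∧ T.rat r = N • γ
  torsion : ∀ r : T.R, T.rat r = 0 → ∃ N : ℕ, 0 < N ∧ N • r = 0
  rat_frob : T.rat T.frobA = A.frob

/-- Integral multiples `r` of correspondences of the form `x × y`, with cycles `x`, `y` of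
complementary codimensions. If the codimension of `y` is positive, then a multiple of `r` maps
`H^4(A × Z, ℤ(2))` to `CH^2(A × Z)`: it factors through the products of `y` and of
`H^2(Z, ℤ(1)) = Pic(Z)` or `H^0(Z, ℤ(0))`. If the codimension of `y` is zero then a multiple of it
factors through `H^4(Z, ℤ(2))`. -/
structure ActsOnUnr (T : UnrData A) : Prop where
  positive : ∀ {c d : ℕ} {x y : A.CH} {n : ℕ} {r : T.R}, c + d = A.dim → 0 < d → A.Codim c x →
    A.Codim d y → T.rat r = n • A.corr x y → ∃ N : ℕ, 0 < N ∧ ∀ h : T.H, N • (r • h) ∈ T.CH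
  zero : ∀ {x y : A.CH} {n : ℕ} {r : T.R}, A.Codim A.dim x → A.Codim 0 y →
    T.rat r = n • A.corr x y → ∃ N : ℕ, 0 < N ∧ ∀ h : T.H, ∃ w : T.HZ, N • (r • h) = T.pull w

/-- The pull-back to `A × Z` and the restriction to `0 × Z`, and their effect on cycles. -/
structure IsPullBack (T : UnrData A) : Prop where
  restr_pull : ∀ w, T.restr (T.pull w) = w
  pull_mem : ∀ w ∈ T.CHZ, T.pull w ∈ T.CH
  restr_mem : ∀ h ∈ T.CH, T.restr h ∈ T.CHZ
  smul_mem : ∀ (r : T.R), ∀ h ∈ T.CH, r • h ∈ T.CH

/-- The Frobenius endomorphisms: the one of `A × Z` operates on `H^4(A × Z, ℤ(2))` as multiplication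
by `Q ^ 2`, the one of `A` operates trivially on the pull-backs from `Z`. -/
structure HasFrobenii (Q : ℕ) (T : UnrData A) : Prop where
  commute : ∀ (r : T.R) (h : T.H), T.frobZ (r • h) = r • T.frobZ h
  product : ∀ h : T.H, T.frobA • T.frobZ h = (Q ^ 2) • h
  pull : ∀ w : T.HZ, T.frobA • T.pull w = T.pull w

/-- The formal properties of the etale motivic cohomology groups, over the field with `Q` elements.
The groups `H^4(A × Z, ℤ(2)) / m` are finite since they are contained in etale cohomology groups with
finite coefficients. -/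
structure IsUnr (Q : ℕ) (T : UnrData A) : Prop where
  integral : IsIntegralForm T
  acts : ActsOnUnr T
  pullBack : IsPullBack T
  frobenii : HasFrobenii Q T
  finite : ∀ m : ℕ, 0 < m → ∃ S : Set T.H, S.Finite ∧ ∀ h, ∃ t ∈ S, ∃ h', h = t + m • h'

/-- The Frobenius endomorphism of `Z` satisfies on `H^4(A × Z, ℤ(2))` a nonzero integral polynomial
whose complex roots are independent of the fields `K i`. If homologically trivial correspondences
on `A × Z` are nilpotent this is a condition on the eigenvalues of Frobenius on the cohomology of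
`Z`. -/
def FrobeniusIndependent (T : UnrData A) {I : Type} (K : I → Type) [∀ i, Field (K i)] : Prop :=
  ∃ χ : ℤ[X], χ ≠ 0 ∧ (∀ ρ : ℂ, aeval ρ χ = 0 → Independent K ρ) ∧ aeval T.frobZ χ = 0

/-- `UnramifiedTimes K q f`: for every abelian variety `A` as in `IsAbelian` and every smooth
projective variety `Z` with Frobenius eigenvalues independent of the fields `K i` the group
`H^3_nr(A × Z, ℚ/ℤ(2))` is finite if and only if the group `H^3_nr(Z, ℚ/ℤ(2))` is finite. -/
def UnramifiedTimes {I : Type} (K : I → Type) [∀ i, Field (K i)] (q : ℕ) (f : I → ℤ[X]) : Prop :=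
  ∀ (F : Type) [Field F] [CharZero F] (A : AbelianData F) (s : ℕ), IsAbelian A q s f →
    ∀ T : UnrData A, IsUnr (q ^ s) T → FrobeniusIndependent T K →
      (Finite T.UnrProduct ↔ Finite T.UnrFactor)

end Pool.Agent.Y156.U
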