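import Mathlib
import Pool.Agent.Y156.U.Defs
import Pool.Agent.Y1.CT.LThms

/-!
# Unramified cohomology of the product of an abelian variety and any variety
-/

set_option autoImplicit false
set_option linter.unusedSectionVars false
set_option linter.unusedVariables false

namespace Pool.Agent.Y156.U

open Module Polynomial Pool.Agent.Y156.L Pool.Agent.Y1.CT

/-- The integral polynomial with the roots `μ / ρ`, `ρ` the roots of `χ`. -/
noncomputable def revZ (χ : ℤ[X]) (μ : ℤ) : ℤ[X] :=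
  ∑ l ∈ Finset.range (χ.natDegree + 1), Polynomial.C (χ.coeff l * μ ^ l) * X ^ (χ.natDegree - l)

theorem revZ_map (χ : ℤ[X]) (μ : ℤ) :
    (revZ χ μ).map (Int.castRingHom ℚ) = rev (χ.map (Int.castRingHom ℚ)) (μ : ℚ) := by
  rw [revZ, rev, Polynomial.map_sum,
    natDegree_map_eq_of_injective (RingHom.injective_int (Int.castRingHom ℚ))]
  refine Finset.sum_congr rfl fun l _ => ?_
  rw [Polynomial.map_mul, Polynomial.map_C, Polynomial.map_pow, Polynomial.map_X, coeff_map,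
    map_mul, map_pow]
  rfl

theorem aeval_revZ {E : Type*} [Ring E] (φ ψ : E) (μ : ℤ) (hc : Commute φ ψ)
    (h : φ * ψ = (μ : E)) (χ : ℤ[X]) (hχ : aeval ψ χ = 0) : aeval φ (revZ χ μ) = 0 := by
  have h1 : φ ^ χ.natDegree * aeval ψ χ = aeval φ (revZ χ μ) := by
    rw [revZ, map_sum, aeval_eq_sum_range, Finset.mul_sum]
    refine Finset.sum_congr rfl fun l hl => ?_
    have hl' : l ≤ χ.natDegree := by
      have := Finset.mem_range.1 hl
      omega
    have h2 : φ ^ χ.natDegree = φ ^ (χ.natDegree - l) * φ ^ l := by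
      rw [← pow_add]
      congr 1
      omega
    have h3 : φ ^ l * ψ ^ l = ((μ ^ l : ℤ) : E) := by
      rw [← hc.mul_pow, h]
      push_cast
      rfl
    rw [map_mul, aeval_C, map_pow, aeval_X, mul_smul_comm, h2, mul_assoc, h3, map_mul, zsmul_eq_mul,
      eq_intCast, eq_intCast, (Int.cast_commute (μ ^ l) _).symm.eq, mul_assoc]
  rw [← h1, hχ, mul_zero]

theorem exists_int (P : ℚ[X]) :
    ∃ (n : ℕ) (P' : ℤ[X]), 0 < n ∧ P'.map (Int.castRingHom ℚ) = (n : ℚ[X]) * P := by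
  induction P using Polynomial.induction_on' with
  | add P R hP hR =>
    obtain ⟨n, P', hn, h1⟩ := hP
    obtain ⟨m, R', hm, h2⟩ := hR
    refine ⟨n * m, (m : ℤ[X]) * P' + (n : ℤ[X]) * R', Nat.mul_pos hn hm, ?_⟩
    rw [Polynomial.map_add, Polynomial.map_mul, Polynomial.map_mul, h1, h2, Polynomial.map_natCast,
      Polynomial.map_natCast]
    push_cast
    ring
  | monomial k a =>
    refine ⟨a.den, monomial k a.num, a.den_pos, ?_⟩
    rw [map_monomial, ← C_mul_X_pow_eq_monomial, ← C_mul_X_pow_eq_monomial, ← mul_assoc,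
      ← C_eq_natCast, ← map_mul]
    congr 2
    rw [mul_comm, eq_intCast]
    exact (Rat.mul_den_eq_num a).symm

variable {F : Type} [Field F] [CharZero F] {A : AbelianData F}

section operators

variable {T : UnrData A}

/-- The subgroup generated by the cycles and the pull-backs. -/
def lower (T : UnrData A) : AddSubgroup T.H := T.CH ⊔ T.pull.range

/-- All integral multiples of `γ` map to the subgroup `lower`, up to a positive integer. -/
def Lowers (T : UnrData A) (γ : A.Corr) : Prop :=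
  ∀ (n : ℕ) (r : T.R), T.rat r = n • γ → ∃ N : ℕ, 0 < N ∧ ∀ h : T.H, N • (r • h) ∈ lower T

theorem lowers_zero (hT : IsIntegralForm T) : Lowers T 0 := by
  intro n r hr
  obtain ⟨N, hN, h1⟩ := hT.torsion r (by rw [hr, smul_zero])
  refine ⟨N, hN, fun h => ?_⟩
  rw [← smul_assoc, h1, zero_smul]
  exact zero_mem _

theorem lowers_add (hT : IsIntegralForm T) {γ δ : A.Corr} (hγ : Lowers T γ) (hδ : Lowers T δ) :
    Lowers T (γ + δ) := by
  intro n r hr
  obtain ⟨n₁, r₁, hn₁, h1⟩ := hT.denom γ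
  obtain ⟨n₂, r₂, hn₂, h2⟩ := hT.denom δ
  obtain ⟨N₁, hN₁, h3⟩ := hγ n₁ r₁ h1
  obtain ⟨N₂, hN₂, h4⟩ := hδ n₂ r₂ h2
  obtain ⟨N₄, hN₄, h5⟩ := hT.torsion ((n₁ * n₂) • r - (n * n₂) • r₁ - (n * n₁) • r₂) (by
    rw [map_sub, map_sub, map_nsmul, map_nsmul, map_nsmul, hr, h1, h2, smul_smul, smul_smul,
      smul_smul, smul_add, sub_sub]
    have e1 : n₁ * n₂ * n = n * n₂ * n₁ := by ring
    have e2 : n * n₁ * n₂ = n * n₂ * n₁ := by ring
    rw [e1, e2, sub_self])
  have h6 : (N₄ * (n₁ * n₂)) • r = (N₄ * (n * n₂)) • r₁ + (N₄ * (n * n₁)) • r₂ := by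
    rw [smul_sub, smul_sub, sub_sub, sub_eq_zero] at h5
    rw [mul_smul N₄, mul_smul N₄, mul_smul N₄]
    exact h5
  refine ⟨N₁ * N₂ * (N₄ * (n₁ * n₂)), by positivity, fun h => ?_⟩
  have h7 : (N₁ * N₂ * (N₄ * (n₁ * n₂))) • (r • h) =
      (N₂ * (N₄ * (n * n₂))) • (N₁ • (r₁ • h)) + (N₁ * (N₄ * (n * n₁))) • (N₂ • (r₂ • h)) := by
    have h8 : (N₄ * (n₁ * n₂)) • (r • h) =
        (N₄ * (n * n₂)) • (r₁ • h) + (N₄ * (n * n₁)) • (r₂ • h) := by
      rw [← smul_assoc, h6, add_smul, smul_assoc, smul_assoc]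
    rw [mul_smul, h8, smul_add, smul_smul, smul_smul, smul_smul, smul_smul]
    congr 2
    · ring
    · ring
  rw [h7]
  exact add_mem (nsmul_mem (h3 h) _) (nsmul_mem (h4 h) _)

theorem lowers_proj (hT : IsIntegralForm T) (hT' : ActsOnUnr T) {J : Type} [Fintype J]
    {c : J → ℕ} {D E : J → A.CH} (h : IsDual A c D E) : Lowers T (proj D E) := by
  classical
  rw [proj]
  refine Finset.sum_induction _ (Lowers T) (fun _ _ => lowers_add hT) (lowers_zero hT) ?_
  intro j _ n r hr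
  rcases Nat.eq_zero_or_pos (c j) with h0 | h0
  · obtain ⟨N, hN, h1⟩ := hT'.zero (x := E j) (y := D j) (n := n) (r := r)
      (by have := h.right j; rw [h0, Nat.sub_zero] at this; exact this)
      (by have := h.left j; rw [h0] at this; exact this) hr
    refine ⟨N, hN, fun z => ?_⟩
    obtain ⟨w, hw⟩ := h1 z
    rw [hw]
    exact AddSubgroup.mem_sup_right ⟨w, rfl⟩
  · obtain ⟨N, hN, h1⟩ := hT'.positive (x := E j) (y := D j) (n := n) (r := r)
      (Nat.sub_add_cancel (h.le j)) h0 (h.right j) (h.left j) hr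
    exact ⟨N, hN, fun z => AddSubgroup.mem_sup_left (h1 z)⟩

theorem aeval_pull {Q : ℕ} (hT : HasFrobenii Q T) (S : ℤ[X]) (w : T.HZ) :
    (aeval T.frobA S) • T.pull w = S.eval 1 • T.pull w := by
  have h1 : ∀ l : ℕ, T.frobA ^ l • T.pull w = T.pull w := by
    intro l
    induction l with
    | zero => rw [pow_zero, one_smul]
    | succ l ih => rw [pow_succ, mul_smul, hT.pull, ih]
  rw [aeval_eq_sum_range, eval_eq_sum_range, Finset.sum_smul, Finset.sum_smul]
  refine Finset.sum_congr rfl fun l _ => ?_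
  rw [smul_assoc, h1, one_pow, mul_one]

theorem aeval_op (S : ℤ[X]) :
    aeval (Module.toAddMonoidEnd T.R T.H T.frobA) S =
      Module.toAddMonoidEnd T.R T.H (aeval T.frobA S) := by
  exact (Polynomial.aeval_algHom_apply (Module.toAddMonoidEnd T.R T.H).toIntAlgHom T.frobA S)

end operators

variable {q s : ℕ} {I : Type} {f : I → ℤ[X]}

/-- **The core.** -/
theorem core (hA : IsAbelian A q s f) {Q : ℕ} {T : UnrData A} (hT : IsUnr Q T) {J : Type}
    [Fintype J] {c : J → ℕ} {D E : J → A.CH} (h : IsDual A c D E) (χ : ℤ[X])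
    (hχ : aeval T.frobZ χ = 0) (P : ℚ[X])
    (hPR : IsCoprime P (rev (χ.map (Int.castRingHom ℚ)) ((Q : ℚ) ^ 2)))
    (hkill : ∀ w : A.H, A.act (proj D E) (aeval (A.frobH.toLinearMap : Module.End F A.H)
      (P.map (algebraMap ℚ F)) w) = aeval (A.frobH.toLinearMap : Module.End F A.H)
        (P.map (algebraMap ℚ F)) w) :
    ∃ N : ℕ, 0 < N ∧ ∀ z : T.H, N • z ∈ lower T := by
  -- the nilpotent correspondence
  set Θ : A.Corr := (1 - proj D E) * aeval A.frob P with hΘ
  have hΘ0 : A.act Θ = 0 := by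
    ext w
    rw [hΘ, map_mul, map_sub, map_one, Module.End.mul_apply, act_aeval hA, LinearMap.sub_apply,
      Module.End.one_apply, hkill, sub_self, LinearMap.zero_apply]
  obtain ⟨k, hk⟩ := hA.nilpotent Θ hΘ0
  -- integral polynomials
  obtain ⟨U, V, hUV⟩ := hPR
  obtain ⟨nU, U₁, hnU, hU⟩ := exists_int U
  obtain ⟨nP, P₁, hnP, hP⟩ := exists_int P
  obtain ⟨nV, V₁, hnV, hV⟩ := exists_int V
  have hint : P₁ * ((nV : ℤ[X]) * U₁) + ((nU * nP : ℕ) : ℤ[X]) * (V₁ * revZ χ ((Q : ℤ) ^ 2)) =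
      ((nU * nP * nV : ℕ) : ℤ[X]) := by
    apply Polynomial.map_injective (Int.castRingHom ℚ) (RingHom.injective_int _)
    rw [Polynomial.map_add, Polynomial.map_mul, Polynomial.map_mul, Polynomial.map_mul,
      Polynomial.map_mul, Polynomial.map_natCast, Polynomial.map_natCast, Polynomial.map_natCast,
      revZ_map, hU, hP, hV]
    have h1 : (((Q : ℤ) ^ 2 : ℤ) : ℚ) = (Q : ℚ) ^ 2 := by push_cast; rfl
    rw [h1]
    push_cast
    linear_combination ((nU : ℚ[X]) * nP * nV) * hUV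
  set m : ℕ := nU * nP * nV with hm
  have hm0 : 0 < m := by positivity
  have hrev : ∀ z : T.H, (aeval T.frobA (revZ χ ((Q : ℤ) ^ 2))) • z = 0 := by
    have hc : Commute (Module.toAddMonoidEnd T.R T.H T.frobA) T.frobZ := by
      refine AddMonoidHom.ext fun z => ?_
      exact (hT.frobenii.commute T.frobA z).symm
    have h1 := aeval_revZ (Module.toAddMonoidEnd T.R T.H T.frobA) T.frobZ ((Q : ℤ) ^ 2) hc (by
      refine AddMonoidHom.ext fun z => ?_
      have h2 := hT.frobenii.product z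
      change T.frobA • T.frobZ z = ((((Q : ℤ) ^ 2 : ℤ) : AddMonoid.End T.H)) z
      rw [h2]
      have h3 : ((((Q : ℤ) ^ 2 : ℤ) : AddMonoid.End T.H)) z = ((Q : ℤ) ^ 2) • z := by
        rw [← zsmul_one]
        rfl
      rw [h3, ← Nat.cast_pow, natCast_zsmul]) χ hχ
    intro z
    rw [aeval_op] at h1
    exact DFunLike.congr_fun h1 z
  have hdiv : ∀ z : T.H, (aeval T.frobA P₁) • ((aeval T.frobA ((nV : ℤ[X]) * U₁)) • z) = m • z := by
    intro z
    have h1 := congrArg (fun S => (aeval T.frobA S) • z) hint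
    simp only [map_add, map_mul, map_natCast, add_smul, mul_smul] at h1
    rw [hrev, smul_zero, smul_zero, add_zero, Nat.cast_smul_eq_nsmul] at h1
    rw [map_mul, map_natCast, mul_smul, Nat.cast_smul_eq_nsmul, h1, Nat.cast_smul_eq_nsmul]
  -- the integral multiple of the projector
  obtain ⟨n, p, hn, hp⟩ := hT.integral.denom (proj D E)
  obtain ⟨N₃, hN₃, hlow⟩ := lowers_proj hT.integral hT.acts h n p hp
  set θ : T.R := ((n : T.R) - p) * aeval T.frobA P₁ with hθ
  have hratθ : T.rat θ = (n * nP) • Θ := by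
    have h1 : T.rat (aeval T.frobA P₁) = nP • aeval A.frob P := by
      have h2 : T.rat (aeval T.frobA P₁) = aeval A.frob P₁ := by
        rw [← hT.integral.rat_frob]
        exact (Polynomial.aeval_algHom_apply T.rat.toIntAlgHom T.frobA P₁).symm
      have h3 : aeval A.frob (P₁.map (algebraMap ℤ ℚ)) = aeval A.frob P₁ :=
        aeval_map_algebraMap ℚ A.frob P₁
      have h4 : P₁.map (algebraMap ℤ ℚ) = (nP : ℚ[X]) * P := hP
      rw [h2, ← h3, h4, map_mul, map_natCast, nsmul_eq_mul]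
    rw [hθ, map_mul, map_sub, map_natCast, h1, hp, hΘ, nsmul_eq_mul, nsmul_eq_mul, nsmul_eq_mul]
    push_cast
    have hc1 : (n : A.Corr) * (1 - proj D E) * ((nP : A.Corr) * aeval A.frob P) =
        (n : A.Corr) * (nP : A.Corr) * ((1 - proj D E) * aeval A.frob P) := by
      rw [← mul_assoc, mul_assoc (n : A.Corr) (1 - proj D E) (nP : A.Corr),
        ← (Nat.cast_commute nP (1 - proj D E)).eq, ← mul_assoc, ← mul_assoc]
    rw [← hc1, mul_sub, mul_one]
  obtain ⟨N₂, hN₂, htor⟩ := hT.integral.torsion (θ ^ k) (by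
    rw [map_pow, hratθ, _root_.smul_pow, hk, smul_zero])
  -- `θ` preserves the lower part, up to a positive integer
  have hθL : ∀ l ∈ lower T, N₃ • (θ • l) ∈ lower T := by
    intro l hl
    obtain ⟨y, hy, z, ⟨w, rfl⟩, rfl⟩ := AddSubgroup.mem_sup.1 hl
    rw [smul_add, smul_add]
    refine add_mem (nsmul_mem (AddSubgroup.mem_sup_left (hT.pullBack.smul_mem _ _ hy)) _) ?_
    rw [hθ, mul_smul, aeval_pull hT.frobenii, sub_smul, Nat.cast_smul_eq_nsmul, smul_comm p,
      smul_sub, smul_comm N₃ (P₁.eval 1)]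
    have hw : T.pull w ∈ lower T := AddSubgroup.mem_sup_right ⟨w, rfl⟩
    exact sub_mem (nsmul_mem (nsmul_mem (zsmul_mem hw _) _) _) (zsmul_mem (hlow _) _)
  have hstep : ∀ z : T.H, (n * m) • z =
      θ • ((aeval T.frobA ((nV : ℤ[X]) * U₁)) • z) + m • (p • z) := by
    intro z
    rw [hθ, mul_smul ((n : T.R) - p) (aeval T.frobA P₁), hdiv, sub_smul, Nat.cast_smul_eq_nsmul,
      smul_comm p, mul_smul, sub_add_cancel]
  have hind : ∀ l : ℕ, ∃ M : ℕ, 0 < M ∧ ∀ z : T.H, ∃ z' : T.H, M • z - θ ^ l • z' ∈ lower T := by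
    intro l
    induction l with
    | zero =>
      refine ⟨1, one_pos, fun z => ⟨z, ?_⟩⟩
      rw [pow_zero, one_smul, one_smul, sub_self]
      exact zero_mem _
    | succ l ih =>
      obtain ⟨M, hM, h1⟩ := ih
      refine ⟨N₃ * (M * (n * m)), by positivity, fun z => ?_⟩
      obtain ⟨z', hz'⟩ := h1 ((aeval T.frobA ((nV : ℤ[X]) * U₁)) • z)
      refine ⟨N₃ • z', ?_⟩
      have h2 : (N₃ * (M * (n * m))) • z - θ ^ (l + 1) • (N₃ • z') =
          N₃ • (θ • (M • ((aeval T.frobA ((nV : ℤ[X]) * U₁)) • z) - θ ^ l • z')) +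
            (M * m) • (N₃ • (p • z)) := by
        have a1 : θ • (M • ((aeval T.frobA ((nV : ℤ[X]) * U₁)) • z)) =
          M • (θ • ((aeval T.frobA ((nV : ℤ[X]) * U₁)) • z)) := smul_comm _ _ _
        have a2 : θ ^ (l + 1) • (N₃ • z') = N₃ • (θ • (θ ^ l • z')) := by
          rw [smul_comm, pow_succ', mul_smul θ (θ ^ l)]
        have a3 : (M * m) • (N₃ • (p • z)) = N₃ • (M • (m • (p • z))) := by
          rw [smul_comm, mul_smul M m]
        have a4 : (N₃ * (M * (n * m))) • z = N₃ • (M • ((n * m) • z)) := by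
          rw [mul_smul N₃, mul_smul M]
        rw [a4, hstep, a2, a3, smul_sub θ, a1, smul_add M, smul_add N₃, smul_sub N₃]
        abel
      rw [h2]
      exact add_mem (hθL _ hz') (nsmul_mem (hlow z) _)
  obtain ⟨M, hM, h1⟩ := hind k
  refine ⟨N₂ * M, by positivity, fun z => ?_⟩
  obtain ⟨z', hz'⟩ := h1 z
  have h2 : N₂ • (θ ^ k • z') = 0 := by
    rw [← smul_assoc, htor, zero_smul]
  have h3 := nsmul_mem hz' N₂
  rwa [smul_sub, h2, sub_zero, smul_smul] at h3

theorem finite_iff {Q : ℕ} {T : UnrData A} (hT : IsUnr Q T) {N : ℕ} (hN : 0 < N)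
    (h : ∀ z : T.H, N • z ∈ lower T) : Finite T.UnrProduct ↔ Finite T.UnrFactor := by
  let g : T.HZ ⧸ T.CHZ →+ T.H ⧸ T.CH :=
    QuotientAddGroup.map T.CHZ T.CH T.pull fun w hw => hT.pullBack.pull_mem w hw
  constructor
  · intro hfin
    refine Finite.of_injective g ?_
    rw [injective_iff_map_eq_zero]
    intro x hx
    obtain ⟨w, rfl⟩ := QuotientAddGroup.mk_surjective x
    have h1 : T.pull w ∈ T.CH := (QuotientAddGroup.eq_zero_iff _).1 hx
    rw [QuotientAddGroup.eq_zero_iff, ← hT.pullBack.restr_pull w]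
    exact hT.pullBack.restr_mem _ h1
  · intro hfin
    obtain ⟨S, hS, hS'⟩ := hT.finite N hN
    have hfin2 : (Set.image2 (fun (t : T.H) (y : T.HZ ⧸ T.CHZ) => (t : T.H ⧸ T.CH) + g y) S
        Set.univ).Finite := Set.Finite.image2 _ hS Set.finite_univ
    refine Set.finite_univ_iff.1 (hfin2.subset ?_)
    intro x _
    obtain ⟨z, rfl⟩ := QuotientAddGroup.mk_surjective x
    obtain ⟨t, ht, z', hz⟩ := hS' z
    obtain ⟨y, hy, w', ⟨w, rfl⟩, h2⟩ := AddSubgroup.mem_sup.1 (h z')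
    refine ⟨t, ht, (w : T.HZ ⧸ T.CHZ), Set.mem_univ _, ?_⟩
    rw [hz]
    change (t : T.H ⧸ T.CH) + ((T.pull w : T.H) : T.H ⧸ T.CH) = ((t + N • z' : T.H) : T.H ⧸ T.CH)
    rw [← h2, QuotientAddGroup.mk_add, QuotientAddGroup.mk_add,
      (QuotientAddGroup.eq_zero_iff y).2 hy, zero_add]

variable {K : I → Type} [∀ i, Field (K i)] (hq : 1 < q) (hR : NoRel f q (Independent K))

include hq hR in
/-- **Unramified cohomology of the product of an abelian variety and any variety.** -/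
theorem unramifiedTimes : UnramifiedTimes K q f := by
  intro F _ _ A s hA T hT hind
  obtain ⟨χ, hχ0, hroots, hχ⟩ := hind
  obtain ⟨n, b, α, hb, hα, hα0, hgood⟩ := Pool.Agent.Y1.CT.L.exists_good_basis hq hR hA
  have hs := hA.pos
  have hQ1 : 1 < q ^ s := Nat.one_lt_pow hs.ne' hq
  have hX1 : (Polynomial.X - 1 : ℚ[X]) ≠ 0 := by
    have := Polynomial.X_sub_C_ne_zero (1 : ℚ)
    rwa [map_one] at this
  have h1 : ∀ t (c : ℤ), α t = ((q ^ s : ℕ) : F) ^ c →
      ∃ l : ℕ, α t = ((q ^ s : ℕ) : F) ^ l ∧ b t ∈ NK A l := by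
    intro t c hc
    exact hgood _ hX1 (root_one hR) 1
      (by rw [map_sub, aeval_X, map_one, sub_self]) t c (by rw [mul_one]; exact hc)
  obtain ⟨J, hJ, c, D, E', hdual, hD, hE, hN⟩ := exists_dual hA hQ1 b α hb h1
  have hχQ : χ.map (Int.castRingHom ℚ) ≠ 0 := by
    rw [Ne, Polynomial.map_eq_zero_iff (RingHom.injective_int (Int.castRingHom ℚ))]
    exact hχ0
  have hrank : ∀ ρ : ℂ, aeval ρ (χ.map (Int.castRingHom ℚ)) = 0 → Independent K ρ := by
    intro ρ hρ
    apply hroots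
    rw [← hρ]
    exact (aeval_map_algebraMap ℚ ρ χ).symm
  obtain ⟨P, hP, hmix⟩ := exists_kill b α hb hα hα0 (χ.map (Int.castRingHom ℚ))
    ((((q ^ s : ℕ) : ℚ)) ^ 2) (by
      intro ρ hρ t ht
      obtain ⟨l, -, hl⟩ := hgood _ hχQ hrank ρ hρ t 2 (by
        rw [ht]
        push_cast
        exact (zpow_natCast _ 2).symm)
      exact ⟨l, hl⟩)
  obtain ⟨N, hN0, hlow⟩ := core hA hT hdual χ hχ P hP
    (fun w => act_proj_mix hA hdual hN (hmix w))
  exact finite_iff hT hN0 hlow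

end Pool.Agent.Y156.U
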